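import Mathlib

set_option autoImplicit false

namespace Pool.Agent.Results.MP_250e3d_co.Counter

theorem result : ¬ ∀ (h : ℕ), 1 ≤ h → ∀ S : Set (ZMod (4 * h)), (∀ s ∈ S, -s ∈ S) → 0 ∉ S →
    (∃ σ : Equiv.Perm (ZMod (4 * h)),
      (∀ x y, (∃ s ∈ S, s ≠ ((2 * h : ℕ) : ZMod (4 * h)) ∧ y - x = s + ((2 * h : ℕ) : ZMod (4 * h))) ↔
        (∃ s ∈ S, s ≠ ((2 * h : ℕ) : ZMod (4 * h)) ∧
          σ y - σ x = s + ((2 * h : ℕ) : ZMod (4 * h)))) ∧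
      σ 0 = 0 ∧ σ ((2 * h : ℕ) : ZMod (4 * h)) ≠ ((2 * h : ℕ) : ZMod (4 * h))) →
    ∃ (K : AddSubgroup (ZMod (4 * h))) (q : ℕ), Odd q ∧ Nat.card K = 2 * q ∧
      ∀ s ∈ S, ¬ (s ∈ K ∧ ¬ ∃ k ∈ K, s = 2 * k) →
        ∀ t ∈ AddSubgroup.zmultiples ((h : ℕ) : ZMod (4 * h)),
          s + t ∈ S ∨ (s + t ∈ K ∧ ¬ ∃ k ∈ K, s + t = 2 * k) := by
  intro H
  obtain ⟨K, q, hq, hK, hS⟩ := H 3 (by norm_num) {x : ZMod 12 | x.val % 2 = 1}
    (by simp only [Set.mem_setOf_eq]; decide) (by simp only [Set.mem_setOf_eq]; decide)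
    ⟨Equiv.swap (6 : ZMod 12) 2, by simp only [Set.mem_setOf_eq]; decide +kernel, by decide,
      by decide⟩
  have h1 : (1 : ZMod 12) ∉ K := by
    intro h1
    have : K = ⊤ := by
      rw [eq_top_iff]
      intro x _
      have := K.nsmul_mem h1 x.val
      simpa using this
    rw [this, AddSubgroup.card_top, Nat.card_zmod] at hK
    obtain ⟨r, rfl⟩ := hq
    omega
  rcases hS (1 : ZMod 12) (by simp only [Set.mem_setOf_eq]; decide) (fun h => h1 h.1) _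
    (AddSubgroup.mem_zmultiples _) with h | ⟨h, h'⟩
  · revert h
    simp only [Set.mem_setOf_eq]
    decide
  · refine h' ⟨_, K.add_mem h h, ?_⟩
    decide

end Pool.Agent.Results.MP_250e3d_co.Counter
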